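import Pool.Agent.LibSq57.Stage5

/-!
# Monochromatic unit squares in 3-space for colourings with the Baire property

Let f be a two-colouring of three dimensional Euclidean space such that, inside some open ball of
radius 4, one colour class has the property of Baire (for instance f is Borel, or f is continuous
off a meagre set).  Then the ball contains a unit square with all four vertices of the same
colour, and its vertices can be chosen outside any prescribed meagre set.

Outline.  Up to a meagre set the two colour classes are disjoint open sets U and V with dense
union, and neither contains a unit square of the ball.  Call a point wild if it is in the closures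
of both.

Stage 1 (Baire category): there is a wild point p such that the union of U and V is dense in the
spheres of radii 1 and sqrt 2 about p.  Put p = 0.
Stage 2 (Baire category): there is a unit vector u which is in the closure of both the parts of U
and V on the unit sphere, such that the union of U and V is dense on the circles of unit vectors
having inner product 0, respectively 1/2, with u.
Mixing: if v is a unit vector orthogonal to u in the union of U and V, and x, y are unit vectors
with x + y = u + v, orthogonal to each other and at distance 1 from u, then x, y are not both in U
and not both in V (perturb u, v, x, y by rotations, and 0 by a translation).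
Stage 3: the points x, y above are obtained from v by turning by the angles b and -b around u where
cos b = 1 / sqrt 3, so generic points of the circle of inner product 1/2 change colour when turned
by 2 b.  The angle 4 b is not a rational multiple of pi, so odd multiples of 2 b are arbitrarily
close to full turns, which contradicts openness of U and V.
-/

set_option autoImplicit false

namespace Pool.Agent.Results.MP_3e7293_co.BaireClass

theorem result (f : EuclideanSpace ℝ (Fin 3) → Fin 2) (x₀ : EuclideanSpace ℝ (Fin 3)) (i : Fin 2)
    (M : Set (EuclideanSpace ℝ (Fin 3))) (hM : IsMeagre M)
    (hf : BaireMeasurableSet (f ⁻¹' {i} ∩ Metric.ball x₀ 4)) :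
    ∃ p q s : EuclideanSpace ℝ (Fin 3), ‖q - p‖ = 1 ∧ ‖s - p‖ = 1 ∧
      inner ℝ (q - p) (s - p) = (0 : ℝ) ∧
      f q = f p ∧ f s = f p ∧ f (q + s - p) = f p ∧
      ∀ x ∈ ({p, q, s, q + s - p} : Set (EuclideanSpace ℝ (Fin 3))),
        x ∈ Metric.ball x₀ 4 ∧ x ∉ M :=
  Pool.Agent.LibSq57.baire_square f x₀ i M hM hf

end Pool.Agent.Results.MP_3e7293_co.BaireClass
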