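import Pool.Agent.LibMS49.Pos

/-!
# Monochromatic unit squares in Lebesgue measurable two-colourings of 3-space

Let f be a two-colouring of three dimensional Euclidean space such that, inside some open ball of
radius 4, one colour class is Lebesgue measurable.  Then the ball contains monochromatic unit
squares; more precisely there are orthogonal unit vectors u, v such that for all u', v' close to
u, v the set of the points p for which p, p+u', p+v', p+u'+v' lie in the ball and have the same
colour has positive Lebesgue measure.

Outline.  Suppose not.  Up to null sets the colour classes A, B are without unit squares.  Call a
point stable if it is a density point of A or of B, and wild otherwise.  Wild points form a null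
set W.

1. If p is wild and all points of the spheres of radius 1 and sqrt 2 about p outside a set of
surface measure zero are stable, put p = 0.  By small translations (which can give p either colour
without changing the stable points) the three other vertices of a unit square with vertex p cannot
be stable of the same colour.
2. On the unit sphere call a point y wild if neither colour has density one at y for small
rotations.  If u is wild on the sphere and u', c, c' are not, in a regular octahedron
0, u, u', c, c', w = u + u' = c + c', then c and c' have different colours.  If almost all points of
the circles at angular distance 60 and 90 degrees from u are not wild on the sphere, this gives a
measurable set of angles exchanged with its complement by the rotation by twice arccos (1/sqrt 3),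
which is impossible as odd multiples of this angle come arbitrarily close to full turns.
3. Hence each wild point u of the sphere has wild points in positive length on one of these two
circles, and each of them again.  But the end point of two random steps on circles has an absolutely
continuous distribution on the sphere, in which wild points are a null set.  So there is no wild
point on the sphere, one colour has full measure on it, and the sphere contains unit squares of
this colour: contradiction.
4. Hence each wild p has wild points in positive area on the sphere of radius 1 or sqrt 2 about p,
and each of them again; the end point of two random steps on such spheres has an absolutely
continuous distribution, and W is null.  So there is no wild point in the ball of radius 1, and one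
colour has full measure in it: contradiction.
-/

set_option autoImplicit false

namespace Pool.Agent.Results.MP_3e7293_co.MeasurableClass

open MeasureTheory

theorem result (f : EuclideanSpace ℝ (Fin 3) → Fin 2) (x₀ : EuclideanSpace ℝ (Fin 3)) (i : Fin 2)
    (hf : NullMeasurableSet (f ⁻¹' {i} ∩ Metric.ball x₀ 4) volume) :
    ∃ u v : EuclideanSpace ℝ (Fin 3), ‖u‖ = 1 ∧ ‖v‖ = 1 ∧ inner ℝ u v = (0 : ℝ) ∧
      ∃ ε > 0, ∀ u' v' : EuclideanSpace ℝ (Fin 3), dist u' u < ε → dist v' v < ε →
        0 < volume {p : EuclideanSpace ℝ (Fin 3) |
          ∀ x ∈ ({p, p + u', p + v', p + u' + v'} : Set (EuclideanSpace ℝ (Fin 3))),
            x ∈ Metric.ball x₀ 4 ∧ f x = f p} :=
  Pool.Agent.LibMS49.measurable_square_pos f x₀ i hf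

end Pool.Agent.Results.MP_3e7293_co.MeasurableClass
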